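import Pool.Agent.H53.GC.Targets
import Pool.Agent.H58.SF.MG

/-!
# A structure with an Olšák polymorphism does not pp-construct the triangle
-/

set_option autoImplicit false

namespace Pool.Agent.H56.GC

open Pool.Agent.H53.GC Pool.Agent.H68.BP Pool.Agent.H58.SF

theorem pf_OLS (hS : T_SEL) : T_OLS := by
  intro σ Y 𝕐 hO hK
  obtain ⟨o, ho, hid⟩ := hO
  obtain ⟨Z, hZ1, hZ2⟩ := hS σ Y 𝕐 hK
  obtain ⟨i, hi⟩ := hZ1 (Fin 6) o ho
  have hpoly : ∀ {J : Type} (π : Fin 6 → J), IsPoly 𝕐 𝕐 (minor π o) := by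
    intro J π l t ht
    exact ho l (fun i => t (π i)) (fun i => ht (π i))
  have key : ∀ r : Fin 3, minor (pat r (0 : Fin 2) 1) o = minor (pat 0 (0 : Fin 2) 1) o := by
    intro r
    funext x
    have h1 : ∀ r : Fin 3, minor (pat r (0 : Fin 2) 1) o x = o (pat r (x 0) (x 1)) := by
      intro r
      refine congrArg o ?_
      funext a
      exact pat_map x r 0 1 a
    rw [h1, h1]
    obtain ⟨e1, e2⟩ := hid (x 0) (x 1)
    fin_cases r
    · rfl
    · exact e1.symm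
    · exact (e1.trans e2).symm
  obtain ⟨j, hj⟩ := hZ1 (Fin 2) (minor (pat 0 (0 : Fin 2) 1) o) (hpoly _)
  have hp : ∀ r : Fin 3, pat r (0 : Fin 2) 1 i = j := by
    intro r
    refine hZ2 (Fin 6) (Fin 2) (pat r (0 : Fin 2) 1) o i j ho hi ?_
    rw [key r]
    exact hj
  have h0 : pat 0 (0 : Fin 2) 1 i = pat 1 (0 : Fin 2) 1 i := (hp 0).trans (hp 1).symm
  have h1 : pat 1 (0 : Fin 2) 1 i = pat 2 (0 : Fin 2) 1 i := (hp 1).trans (hp 2).symm
  clear hp hi
  unfold pat at h0 h1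
  revert h0 h1
  fin_cases i <;> decide

end Pool.Agent.H56.GC
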